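import Pool.Agent.Helper74_RL.Stmts

/-! # RLB, modules PRJ and TBD -/

noncomputable section

open scoped ContDiff Topology ENNReal RealInnerProductSpace BoundedContinuousFunction
set_option maxSynthPendingDepth 3
open Set Metric

namespace Pool.Agent.RLim.H76

open Pool.Agent.RLim
open Pool.Agent.RF

variable (D : MetricData)

theorem w_small {ε : ℝ} (hε : 0 < ε) : ∃ N, ∀ k ≥ N, 2 * D.w k ≤ ε := by
  obtain ⟨N, hN⟩ := exists_pow_lt_of_lt_one hε (by norm_num : (1/2 : ℝ) < 1)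
  refine ⟨N, fun k hk => ?_⟩
  have h1 := D.w_le k
  have h2 := D.s_le k
  have h3 : (1:ℝ) / 2 ^ (k + 3) = (1/2) ^ k / 8 := by
    rw [pow_add, one_div_pow]
    field_simp
    norm_num
  have h4 : ((1:ℝ)/2) ^ k ≤ (1/2) ^ N := pow_le_pow_of_le_one (by norm_num) (by norm_num) hk
  have h5 : (0:ℝ) ≤ (1/2) ^ k := by positivity
  rw [h3] at h2
  linarith

theorem prj_dist (j : ℕ) (y y' : BlI D) : dist (prj D j y) (prj D j y') ≤ dist y y' := by
  rw [Subtype.dist_eq, Subtype.dist_eq, Prod.dist_eq, Prod.dist_eq]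
  refine max_le_max le_rfl ?_
  refine (dist_pi_le_iff dist_nonneg).2 fun k => ?_
  exact BoundedContinuousFunction.dist_coe_le_dist (f := y.1.2) (g := y'.1.2) (k : ℕ)

theorem prj_sec (j : ℕ) (p : Bl D j) : prj D j (sec D j p) = p := by
  refine Subtype.ext (Prod.ext rfl ?_)
  funext k
  change (if h : (k : ℕ) < j then p.1.2 ⟨k, h⟩ else _) = p.1.2 k
  rw [dif_pos k.2]

theorem dist_prj {ε : ℝ} (hε : 0 ≤ ε) (j : ℕ) (hj : ∀ k ≥ j, 2 * D.w k ≤ ε) (y y' : BlI D) :
    dist y y' ≤ dist (prj D j y) (prj D j y') + ε := by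
  have hd : 0 ≤ dist (prj D j y) (prj D j y') := dist_nonneg
  rw [Subtype.dist_eq y y', Prod.dist_eq]
  refine max_le ?_ ?_
  · have h1 : dist y.1.1 y'.1.1 ≤ dist (prj D j y) (prj D j y') := by
      rw [Subtype.dist_eq, Prod.dist_eq]
      exact le_max_left _ _
    linarith
  · refine (BoundedContinuousFunction.dist_le (by linarith)).2 fun k => ?_
    by_cases hk : k < j
    · have h1 : dist (y.1.2 k) (y'.1.2 k) ≤ dist (prj D j y) (prj D j y') := by
        rw [Subtype.dist_eq, Prod.dist_eq]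
        refine le_trans ?_ (le_max_right _ _)
        exact dist_le_pi_dist (fun k : Fin j => y.1.2 k) (fun k : Fin j => y'.1.2 k) ⟨k, hk⟩
      linarith
    · have h1 := hj k (not_lt.1 hk)
      have h2 : dist (y.1.2 k) (y'.1.2 k) ≤ ‖y.1.2 k‖ + ‖y'.1.2 k‖ := dist_le_norm_add_norm _ _
      rw [(y.2 k).1, (y'.2 k).1] at h2
      linarith

theorem prj : PrjStmt := by
  intro D
  refine ⟨prj_dist D, prj_sec D, ?_, ?_, fun j X => rfl, ?_⟩
  · intro ε hε
    obtain ⟨N, hN⟩ := w_small D hε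
    exact ⟨N, fun j hj y y' => dist_prj D hε.le j (fun k hk => hN k (hj.trans hk)) y y'⟩
  · intro ε hε
    obtain ⟨N, hN⟩ := w_small D hε
    refine ⟨N, fun j hj y => ?_⟩
    have h1 := dist_prj D hε.le j (fun k hk => hN k (hj.trans hk)) (sec D j (RLim.prj D j y)) y
    rw [prj_sec, dist_self, zero_add] at h1
    exact h1
  · intro j X
    refine Subtype.ext (Prod.ext rfl ?_)
    refine BoundedContinuousFunction.ext fun k => ?_
    change (if h : (k : ℕ) < j then _ else D.w k • hd (X - D.P k)) = D.w k • hd (X - D.P k)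
    by_cases h : k < j
    · rw [dif_pos h]; rfl
    · rw [dif_neg h]

theorem tbd (hPrj : PrjStmt) : TbdStmt := by
  classical
  intro D R ε hε
  obtain ⟨-, -, h3, -⟩ := hPrj D
  obtain ⟨N, hN⟩ := h3 (ε / 4) (by linarith)
  let φ : BlI D → E4 × (Fin N → E3) := fun y => (RLim.prj D N y).1
  let B : Set (BlI D) := {y | ‖y.1.1‖ ≤ R}
  have hsub : φ '' B ⊆ closedBall 0 (max R 1) := by
    rintro _ ⟨y, hy, rfl⟩
    rw [mem_closedBall_zero_iff, Prod.norm_def]
    refine max_le (le_trans hy (le_max_left _ _)) ?_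
    refine le_trans ?_ (le_max_right R 1)
    refine (pi_norm_le_iff_of_nonneg zero_le_one).2 fun k => ?_
    have h1 : ‖y.1.2 k‖ = D.w k := (y.2 k).1
    have h2 := w_le_one D k
    change ‖y.1.2 k‖ ≤ 1
    linarith
  have htb : TotallyBounded (φ '' B) := (isCompact_closedBall _ _).totallyBounded.subset hsub
  obtain ⟨t, ht1, ht2, ht3⟩ := Metric.finite_approx_of_totallyBounded htb (ε / 2) (by linarith)
  have hg : ∀ a : t, ∃ y : BlI D, y ∈ B ∧ φ y = a := fun a => ht1 a.2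
  choose g hgB hg2 using hg
  have : Fintype t := ht2.fintype
  refine ⟨Finset.univ.image g, fun y hy => ?_⟩
  have h4 : φ y ∈ ⋃ z ∈ t, ball z (ε / 2) := ht3 ⟨y, hy, rfl⟩
  simp only [mem_iUnion, mem_ball] at h4
  obtain ⟨z, hz, hz2⟩ := h4
  refine ⟨g ⟨z, hz⟩, Finset.mem_image_of_mem _ (Finset.mem_univ _), ?_⟩
  have h5 := hN N le_rfl y (g ⟨z, hz⟩)
  have h6 : dist (RLim.prj D N y) (RLim.prj D N (g ⟨z, hz⟩)) < ε / 2 := by
    rw [Subtype.dist_eq]
    have h7 : (RLim.prj D N (g ⟨z, hz⟩)).1 = z := hg2 ⟨z, hz⟩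
    rw [h7]
    exact hz2
  linarith

end Pool.Agent.RLim.H76
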